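import Pool.Agent.K3h5.FF.Stm

/-! Brick NICE of the project FF (helper5): almost surely the values are nice. -/

set_option autoImplicit false

open MeasureTheory Filter Topology ProbabilityTheory Set

namespace Pool.Agent.K3h64.FF

open Pool.Agent.K3h5.FF

lemma dmeas_ac (f : ℝ → ℝ) : dmeas f ≪ volume.restrict (Ioo (0 : ℝ) 1) :=
  withDensity_absolutelyContinuous _ _

lemma root_law {lam : ℤ → ℝ → ℝ} {phi : ℝ → ℝ} {Ω : Type} [MeasurableSpace Ω]
    {μ : Measure Ω} {Y : Idx → Ω → ℝ} (h : Root lam phi μ Y) (i : (ℤ × ℕ) ⊕ ℕ) :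
    ∃ f : ℝ → ℝ, μ.map (Y (Sum.inr i)) = dmeas f := by
  rcases i with ⟨k, m⟩ | j
  · exact ⟨_, h.point k m⟩
  · exact ⟨_, h.front j⟩

theorem t_NICE : S_NICE := by
  intro lam phi Ω _ μ Y h
  have := h.prob
  have h1 : ∀ᵐ ω ∂μ, ∀ i : (ℤ × ℕ) ⊕ ℕ, Y (Sum.inr i) ω ∈ Ioo (0 : ℝ) 1 := by
    rw [ae_all_iff]
    intro i
    obtain ⟨f, hf⟩ := root_law h i
    refine ae_of_ae_map (h.meas (Sum.inr i)).aemeasurable (p := fun x => x ∈ Ioo (0 : ℝ) 1) ?_
    rw [hf]
    exact (dmeas_ac f).ae_le (ae_restrict_mem measurableSet_Ioo)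
  have h2 : ∀ᵐ ω ∂μ, ∀ i i' : (ℤ × ℕ) ⊕ ℕ, i ≠ i' → Y (Sum.inr i) ω ≠ Y (Sum.inr i') ω := by
    rw [ae_all_iff]
    intro i
    rw [ae_all_iff]
    intro i'
    by_cases hi : i = i'
    · exact Eventually.of_forall fun ω hne => absurd hi hne
    · have hne : (Sum.inr i : Idx) ≠ Sum.inr i' := fun h => hi (Sum.inr_injective h)
      have hind : IndepFun (Y (Sum.inr i)) (Y (Sum.inr i')) μ := h.indep.indepFun hne
      have hm := (indepFun_iff_map_prod_eq_prod_map_map (h.meas (Sum.inr i)).aemeasurable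
        (h.meas (Sum.inr i')).aemeasurable).mp hind
      obtain ⟨f, hf⟩ := root_law h i'
      have hp : ∀ᵐ p ∂(μ.map fun ω => (Y (Sum.inr i) ω, Y (Sum.inr i') ω)), ¬ (p.1 = p.2) := by
        rw [hm]
        have hd : MeasurableSet {p : ℝ × ℝ | p.1 = p.2} :=
          measurableSet_eq_fun measurable_fst measurable_snd
        rw [ae_iff]
        have e1 : {a : ℝ × ℝ | ¬¬(a.1 = a.2)} = {p : ℝ × ℝ | p.1 = p.2} := by
          ext p; simp
        have : IsProbabilityMeasure (μ.map (Y (Sum.inr i'))) :=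
          Measure.isProbabilityMeasure_map (h.meas _).aemeasurable
        rw [e1, Measure.measure_prod_null hd]
        refine Eventually.of_forall fun x => ?_
        have e2 : Prod.mk x ⁻¹' {p : ℝ × ℝ | p.1 = p.2} = {x} := by
          ext z; simp [eq_comm]
        show (μ.map (Y (Sum.inr i'))) (Prod.mk x ⁻¹' {p : ℝ × ℝ | p.1 = p.2}) = 0
        rw [e2, hf]
        apply dmeas_ac f
        rw [Measure.restrict_apply (measurableSet_singleton x)]
        exact measure_mono_null inter_subset_left (by simp)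
      have hq := ae_of_ae_map ((h.meas (Sum.inr i)).prodMk (h.meas (Sum.inr i'))).aemeasurable hp
      filter_upwards [hq] with ω hω _
      exact hω
  have h3 : ∀ᵐ ω ∂μ, ∀ k : ℤ, ∃ N : ℕ, Y (Sum.inl k) ω = N := by
    rw [ae_all_iff]
    intro k
    refine ae_of_ae_map (h.meas (Sum.inl k)).aemeasurable (p := fun x => ∃ N : ℕ, x = N) ?_
    rw [h.count k]
    have hs : MeasurableSet {x : ℝ | ∃ N : ℕ, x = N} := by
      have : {x : ℝ | ∃ N : ℕ, x = N} = Set.range (fun N : ℕ => (N : ℝ)) := by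
        ext x; simp [eq_comm]
      rw [this]
      exact (Set.countable_range _).measurableSet
    rw [ae_map_iff (by fun_prop) hs]
    exact Eventually.of_forall fun m => ⟨m, rfl⟩
  filter_upwards [h1, h2, h3] with ω a1 a2 a3
  refine ⟨a1, ?_, a3⟩
  intro i i' hii
  by_contra hne
  exact a2 i i' hne hii

end Pool.Agent.K3h64.FF
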